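import Pool.Agent.MWGQ.Stmts

/-!
# Row KAR of block MWGQ
-/

namespace Pool.Agent.MWGQ.H44

open Pool.Agent.Helper14_MV Pool.Agent.Helper2_MV
open Pool.Agent.MWGN (Nm WC WT Tau Ns nl sg nn N1 N2 K0 Kb Kc T2 gh)

variable {β : FIC} {n : ℕ}

theorem cx (p q : List ℕ) {l l' : List ℕ} (h : RR β l l') :
    RR β (p ++ (l ++ q)) (p ++ (l' ++ q)) :=
  (RR.refl p).append (h.append (RR.refl q))

/-- three words -/
def s3 (X Y Z : List ℕ) (i : ℕ) : List ℕ := if i = 0 then X else if i = 1 then Y else Z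

theorem pw_zero (u : List ℕ) : pw 0 u = [] := rfl

theorem pw_one (u : List ℕ) : pw 1 u = u := by
  unfold pw
  simp

theorem pw_add (a b : ℕ) (u : List ℕ) : pw (a + b) u = pw a u ++ pw b u := by
  unfold pw
  rw [List.replicate_add, List.flatten_append]

theorem pw_succ (a : ℕ) (u : List ℕ) : pw (a + 1) u = pw a u ++ u := by
  rw [pw_add, pw_one]

theorem pw_succ' (a : ℕ) (u : List ℕ) : pw (a + 1) u = u ++ pw a u := by
  rw [Nat.add_comm, pw_add, pw_one]

theorem flat_z (a : ℕ) (f : ℕ → List ℕ) : (Z a).flatMap f = pw a (f 0) := by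
  unfold pw
  induction a with
  | zero => rfl
  | succ a ih =>
    show (0 :: List.replicate a 0).flatMap f = (f 0 :: List.replicate a (f 0)).flatten
    rw [List.flatMap_cons, List.flatten_cons, ih]

/-- the number of copies of `X` behind another `X` -/
theorem pwr (hp : PwxStmt) (h : Gn n β) (W1 X W2 R : List ℕ) {a b : ℕ} (ha : 1 ≤ a) (hb : 1 ≤ b)
    (hab : a ≡ b [MOD n]) :
    RR β (W1 ++ (X ++ (W2 ++ (pw a X ++ R)))) (W1 ++ (X ++ (W2 ++ (pw b X ++ R)))) := by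
  have h1 := cx W1 R ((hp n β h).2.1 X W2 a b ha hb hab)
  simp only [List.append_assoc] at h1
  exact h1

/-- `A0` with words -/
theorem a0w (h : A0 n β) (W X Z' s r : List ℕ) :
    RR β (W ++ (X ++ (X ++ (Z' ++ (s ++ (Z' ++ r))))))
      (W ++ (X ++ (X ++ (Z' ++ (pw n X ++ (s ++ (Z' ++ r))))))) := by
  have h1 := cx W r (RR.sub (s3 X Z' s) h)
  have e1 : W ++ (([0, 0, 1, 2, 1] : List ℕ).flatMap (s3 X Z' s) ++ r) =
      W ++ (X ++ (X ++ (Z' ++ (s ++ (Z' ++ r))))) := by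
    simp [s3, List.append_assoc]
  have e2 : W ++ (([0, 0, 1] ++ (Z n ++ [2, 1]) : List ℕ).flatMap (s3 X Z' s) ++ r) =
      W ++ (X ++ (X ++ (Z' ++ (pw n X ++ (s ++ (Z' ++ r)))))) := by
    rw [List.flatMap_append, List.flatMap_append, flat_z]
    simp [s3, List.append_assoc]
  rw [e1, e2] at h1
  exact h1

/-- powers commute -/
theorem cw (hp : PwxStmt) (h : Gn n β) (W X C r : List ℕ) {a b : ℕ} (ha : 2 ≤ a) (hb : 2 ≤ b) :
    RR β (W ++ (pw a X ++ (pw b C ++ r))) (W ++ (pw b C ++ (pw a X ++ r))) := by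
  have h1 := cx W r ((hp n β h).2.2 X C a b ha hb)
  simp only [List.append_assoc] at h1
  exact h1

/-- `k` with words -/
theorem kw (h : Gn n β) (X Y t r : List ℕ) :
    RR β (X ++ (Y ++ (t ++ (X ++ (Y ++ r))))) (Y ++ (X ++ (t ++ (X ++ (Y ++ r))))) := by
  have h1 := (h.k.sub (s3 X Y t)).append (RR.refl r)
  have e1 : ([0, 1, 2, 0, 1] : List ℕ).flatMap (s3 X Y t) ++ r =
      X ++ (Y ++ (t ++ (X ++ (Y ++ r)))) := by
    simp [s3, List.append_assoc]
  have e2 : ([1, 0, 2, 0, 1] : List ℕ).flatMap (s3 X Y t) ++ r =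
      Y ++ (X ++ (t ++ (X ++ (Y ++ r)))) := by
    simp [s3, List.append_assoc]
  rw [e1, e2] at h1
  exact h1

/-- `U` is a factor of `R` -/
def In (U R : List ℕ) : Prop := ∃ s r, R = s ++ (U ++ r)

theorem In.left {U R : List ℕ} (h : In U R) (p : List ℕ) : In U (p ++ R) := by
  obtain ⟨s, r, e⟩ := h
  exact ⟨p ++ s, r, by rw [e, List.append_assoc]⟩

theorem In.right {U R : List ℕ} (h : In U R) (p : List ℕ) : In U (R ++ p) := by
  obtain ⟨s, r, e⟩ := h
  exact ⟨s, r ++ p, by rw [e]; simp only [List.append_assoc]⟩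

theorem pwi (hp : PwxStmt) (h : Gn n β) {W X : List ℕ} (hW : In X W) (R : List ℕ) {a b : ℕ}
    (ha : 1 ≤ a) (hb : 1 ≤ b) (hab : a ≡ b [MOD n]) :
    RR β (W ++ (pw a X ++ R)) (W ++ (pw b X ++ R)) := by
  obtain ⟨W1, W2, rfl⟩ := hW
  have h1 := pwr hp h W1 X W2 R ha hb hab
  simp only [List.append_assoc]
  exact h1

/-- step over a light word -/
theorem st1 (hp : PwxStmt) (h : Gn n β) (hA : A0 n β) {W X Z' R : List ℕ} (hW : In X W)
    (hR : In Z' R) :
    RR β (W ++ (pw n X ++ (Z' ++ R))) (W ++ (pw n X ++ (Z' ++ (pw n X ++ R)))) := by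
  have hn := h.pos
  have hm : n ≡ 3 * n [MOD n] := by
    have : 3 * n = n + 2 * n := by ring
    rw [this]
    exact (Nat.modEq_iff_dvd' (by omega)).2 ⟨2, by rw [Nat.add_sub_cancel_left]; ring⟩
  have h1 := pwi hp h hW (Z' ++ R) hn (by omega : 1 ≤ 3 * n) hm
  have h3 := pwi hp h hW (Z' ++ (pw n X ++ R)) hn (by omega : 1 ≤ 3 * n) hm
  have e : pw (3 * n) X = pw (3 * n - 2) X ++ (X ++ X) := by
    have e1 : 3 * n = 3 * n - 2 + 2 := by omega
    have e2 : pw 2 X = X ++ X := by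
      show pw (1 + 1) X = _
      rw [pw_add, pw_one]
    conv_lhs => rw [e1]
    rw [pw_add, e2]
  obtain ⟨s, r, rfl⟩ := hR
  have h2 := a0w hA (W ++ pw (3 * n - 2) X) X Z' s r
  rw [e] at h1 h3
  simp only [List.append_assoc] at h1 h2 h3 ⊢
  exact β.trans h1 (β.trans h2 (β.symm h3))

/-- step over a light word and a power -/
theorem st2 (hp : PwxStmt) (h : Gn n β) (hA : A0 n β) {W X Z' R : List ℕ} (C : List ℕ)
    (hW : In X W) (hR : In Z' R) :
    RR β (W ++ (pw n X ++ (Z' ++ (pw (n + 1) C ++ R))))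
      (W ++ (pw n X ++ (Z' ++ (pw (n + 1) C ++ (pw n X ++ R))))) := by
  have hn := h.pos
  have hm : n ≡ 2 * n [MOD n] := by
    have : 2 * n = n + n := by ring
    rw [this]
    exact (Nat.modEq_iff_dvd' (by omega)).2 ⟨1, by rw [Nat.add_sub_cancel_left]; ring⟩
  have h1 := st1 hp h hA (R := pw (n + 1) C ++ R) hW (hR.left _)
  have hW2 : In X (W ++ (pw n X ++ Z')) := hW.right _
  have h2 := pwi hp h hW2 (pw (n + 1) C ++ R) hn (by omega : 1 ≤ 2 * n) hm
  have h3 := cw hp h (W ++ (pw n X ++ Z')) X C R (by omega : 2 ≤ 2 * n) (by omega : 2 ≤ n + 1)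
  have hW3 : In X (W ++ (pw n X ++ (Z' ++ pw (n + 1) C))) := hW.right _
  have h4 := pwi hp h hW3 R hn (by omega : 1 ≤ 2 * n) hm
  simp only [List.append_assoc] at h1 h2 h3 h4 ⊢
  exact β.trans h1 (β.trans h2 (β.trans h3 (β.symm h4)))

theorem bd_succ (L C : ℕ → List ℕ) (j : ℕ) :
    bd n L C (j + 1) = bd n L C j ++ (L j ++ pw (n + 1) (C j)) := by
  simp [bd, List.range_succ]

/-- the claim -/
theorem clm (hp : PwxStmt) (h : Gn n β) (hA : A0 n β) {G X : List ℕ} (L C : ℕ → List ℕ)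
    (hG : In X G) : ∀ (j : ℕ) (R : List ℕ), (∀ i < j, In (L i) R) →
      RR β (G ++ (X ++ (bd n L C j ++ R))) (G ++ (X ++ (bd n L C j ++ (pw n X ++ R)))) := by
  intro j
  induction j with
  | zero =>
    intro R _
    have hm : 1 ≡ n + 1 [MOD n] :=
      (Nat.modEq_iff_dvd' (by omega)).2 ⟨1, by rw [Nat.add_sub_cancel]; ring⟩
    have h1 := pwi hp h hG R le_rfl (by omega : 1 ≤ n + 1) hm
    rw [pw_one, pw_succ'] at h1
    have e : bd n L C 0 = [] := rfl
    rw [e]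
    simp only [List.append_assoc, List.nil_append] at h1 ⊢
    exact h1
  | succ j ih =>
    intro R hR
    have hR1 : ∀ i < j, In (L i) (L j ++ (pw (n + 1) (C j) ++ R)) := fun i hi =>
      ((hR i (by omega)).left _).left (L j)
    have hR2 : ∀ i < j, In (L i) (L j ++ (pw (n + 1) (C j) ++ (pw n X ++ R))) := fun i hi =>
      (((hR i (by omega)).left _).left _).left (L j)
    have h1 := ih _ hR1
    have h2 := st2 hp h hA (W := G ++ (X ++ bd n L C j)) (X := X) (Z' := L j) (R := R) (C j)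
      ⟨G, bd n L C j, rfl⟩ (hR j (by omega))
    have h3 := ih _ hR2
    rw [bd_succ]
    simp only [List.append_assoc] at h1 h2 h3 ⊢
    exact β.trans h1 (β.trans h2 (β.symm h3))

theorem in_tail {S L : ℕ → List ℕ} {τ : List ℕ} {i : ℕ} (h : i ∈ τ) :
    In (L i) (τ.flatMap (fun i => S i ++ L i)) := by
  obtain ⟨a, b, rfl⟩ := List.append_of_mem h
  refine ⟨a.flatMap (fun i => S i ++ L i) ++ S i, b.flatMap (fun i => S i ++ L i), ?_⟩
  rw [List.flatMap_append, List.flatMap_cons]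
  simp only [List.append_assoc]

/-- `X^n` can be inserted behind `L m` -/
theorem ins (hp : PwxStmt) (h : Gn n β) (hA : A0 n β) {G X : List ℕ} (L C : ℕ → List ℕ)
    (hG : In X G) (m : ℕ) (R : List ℕ) (hR : ∀ i ≤ m, In (L i) R) :
    RR β (G ++ (X ++ (bd n L C m ++ (L m ++ R))))
      (G ++ (X ++ (bd n L C m ++ (L m ++ (pw n X ++ R))))) := by
  have h1 := clm hp h hA L C hG m (L m ++ R) (fun i hi => (hR i (by omega)).left _)
  have h2 := st1 hp h hA (W := G ++ (X ++ bd n L C m)) (X := X) (Z' := L m) (R := R)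
    ⟨G, bd n L C m, rfl⟩ (hR m le_rfl)
  have h3 := clm hp h hA L C hG m (L m ++ (pw n X ++ R))
    (fun i hi => ((hR i (by omega)).left _).left _)
  simp only [List.append_assoc] at h1 h2 h3 ⊢
  exact β.trans h1 (β.trans h2 (β.symm h3))

/-- **KAR** -/
theorem kar (hp : PwxStmt) : KarStmt := by
  intro n β h hA m τ hτ X Y A B S L C
  have hR : ∀ i ≤ m, In (L i) (Y ++ (B ++ τ.flatMap (fun i => S i ++ L i))) := fun i hi =>
    ((in_tail ((hτ.2 i).2 hi)).left B).left Y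
  have h1 := ins hp h hA (G := X ++ (Y ++ A)) (X := X) L C ⟨[], Y ++ A, rfl⟩ m _ hR
  have h2 := ins hp h hA (G := Y ++ (X ++ A)) (X := X) L C ⟨Y, A, rfl⟩ m _ hR
  have h3 := kw h X Y (A ++ (X ++ (bd n L C m ++ (L m ++ pw (n - 1) X))))
    (B ++ τ.flatMap (fun i => S i ++ L i))
  have e : pw n X = pw (n - 1) X ++ X := by
    have hn := h.pos
    have e1 : n = n - 1 + 1 := by omega
    conv_lhs => rw [e1]
    rw [pw_succ]
  unfold kr
  rw [e] at h1 h2
  simp only [List.append_assoc] at h1 h2 h3 ⊢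
  exact β.trans h1 (β.trans h3 (β.symm h2))

end Pool.Agent.MWGQ.H44
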