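import Pool.Agent.MWGQ.Stmts
import Pool.Agent.Helper43_MWGN.VCL

/-!
# Row VCL of block MWGQ
-/

namespace Pool.Agent.MWGQ.H44

open Pool.Agent.Helper14_MV Pool.Agent.Helper2_MV
open Pool.Agent.MWGN (Nm WC WT Tau Ns nl sg nn N1 N2 K0 Kb Kc T2 gh)
open Pool.Agent.MWGN.H43 (ns1 ns2)

/-- **VCL** -/
theorem vcl (hWcv : WcvStmt) (hSpv : SpvStmt) (hKar : KarStmt) (hKpr : KprStmt) : VclStmt := by
  intro n β hG τ m hτ hK w w' hr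
  have hA : ¬ A0 n β := fun h => hK (hKar n β hG h m τ hτ)
  have hP : ¬ P0 n β := fun h => hK (hKpr n β hG h m τ hτ)
  have hE : ¬ E0 n β := by
    intro h
    apply hA
    have h1 : RR β ([0, 0, 1] ++ [2, 1]) (([0, 0, 1] ++ Z n) ++ [2, 1]) :=
      RR.append h (RR.refl (β := β) [2, 1])
    rw [List.append_assoc] at h1
    exact h1
  have w1 := hWcv n β hG hE hP hA N1 τ m m (ns1 m) (by omega) w w' hr
  have w2 := hWcv n β hG hE hP hA (N2 m) τ m (m + 1) (ns2 m) le_rfl w w' hr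
  have k0 : K0 τ m w → K0 τ m w' := fun h =>
    ⟨w1.1 h.c1, w1.2.1 h.t1, w2.1 h.c2, w2.2.1 h.t2⟩
  have r2 : Rs2 n m w → Rs2 n m w' := fun h => ⟨w1.2.2 h.1, w2.2.2 h.2⟩
  refine ⟨fun h => ⟨⟨k0 h.1.1, ?_⟩, r2 h.2⟩, fun h => ⟨⟨k0 h.1.1, ?_⟩, r2 h.2⟩⟩
  · exact hSpv n β hG N1 τ m m (ns1 m) hτ le_rfl (by omega) hK w w' hr h.1.1.c1 h.1.1.t1 h.2.1
      h.1.2
  · exact hSpv n β hG (N2 m) τ m (m + 1) (ns2 m) hτ (by omega) le_rfl hK w w' hr h.1.1.c2 h.1.1.t2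
      h.2.2 h.1.2

end Pool.Agent.MWGQ.H44
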